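import Pool.Agent.Run7.h641.IL.Main

/-!
# The arithmetic Hodge index conjecture on the varieties `X × A ^ n`: a law of inertia

Let `A` be an abelian variety over a number field (or a product of curves and abelian varieties) and `X` a
smooth projective variety whose Chow motive carries the Lefschetz operators `L`, `Λ` (a point, or a
product of curves, surfaces and abelian varieties: Künnemann, Murre), such that the height pairings of
Beilinson and Bloch are defined on the varieties `X × A ^ n`, which carry the product polarisations. Let
`w` be the Weyl operator of the representation of `sl₂` on the Chow motives `h = ⨁ h^j`. Put `W = ε w`,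
where `ε = (-1) ^ (j (j - 1) / 2)` on `h^j`, and

  `ht(x, y) = -(x, W y)`,

a symmetric bilinear form on the space `V(n)` of all homologically trivial cycles on `X × A ^ n` (all
codimensions, real coefficients). For a primitive class `x` of codimension `i` in the part `h^(2 i - 1)`
(conjecturally there are no others) `ht(x, x)` is a positive multiple of `(-1) ^ i (x, L ^ (d + 1 - 2 i) x)`,
`d = dim X × A ^ n`. So the conjecture (Q2) for `X × A ^ n` and all `i` says that `ht` is positive definite
on these parts of `V(n)`. The adjoint of a correspondence `f` between powers of `A` is `f' = W⁻¹ ᵗf W`, a
positive involution by the Hodge-Riemann relations: the trace of `f f'` on the cohomology is positive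
if `f` is not numerically trivial. Write

* `ker(n)` for the dimension of the kernel of `ht` on `V(n)`, and `rk(n)` for its rank,
* `pos(n)`, `neg(n)` for the numbers of its positive and of its negative squares, i.e. the largest
  dimensions of spaces of cycles on which it is positive (negative) definite, in `{0, 1, …, ∞}`,
* `ρ(n)` for the rank of the group of all cycles on `A ^ n` modulo numerical equivalence.

Theorem.

1. (External products.) If `ht(a, a) < 0` for one cycle `a` on `X × Y`, then `ht` has on `X × Y × Z` at
   least as many negative squares as there are numerically independent cycles on `Z`; likewise for
   positive squares. Here `Y`, `Z` are any powers of `A`.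
2. (Law of inertia.) For `n → ∞` the quotients of `dim V(n)`, `ker(n)`, `pos(n)`, `neg(n)` by `ρ(n)`
   converge to elements `Nall`, `Nker`, `Npos`, `Nneg` of `{0, 1, 2, …, ∞}`, and
   `Nall = Nker + Npos + Nneg`.
3. The form is positive definite on `V(n)` for ALL `n` if and only if `Nker = Nneg = 0`. It is
   nonnegative for all `n` if and only if `Nneg = 0`, and nonpositive for all `n` if and only if
   `Npos = 0`.
4. (Gap.) If `ht(a, a) < 0` for one cycle `a` on one variety `X × A ^ m` (for example on `X`), then for
   ALL `n` with `2 n ≥ 128 (m + 1) ^ 2 b ^ (2 m + 6)` (`b` is the sum of the Betti numbers of `A`) there
   are at least `ρ(2 n) / 2` negative squares on `X × A ^ (2 n)`, and at least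
   `b ^ (2 n) / (2 (n + 1) ^ (b ^ 2))`. So `neg(2 n) < ρ(2 n) / 2` for one explicit power implies the
   inequality of the conjecture, up to classes in the kernel, for `X × A ^ m` and all `i`. Likewise for
   positive squares.
5. (Few wrong signs.) If `Nneg = k` is finite, there are at most `k` cycles on one of the varieties
   `X × A ^ m` such that for ALL `n` the form is nonpositive on the space spanned by their images in
   `V(n)` under correspondences between powers of `A`, and nonnegative on the orthogonal of this space.
   Likewise for `Npos`.
6. (Signs and nilpotence.) If `Nneg = k` is finite, then all compositions of `2 k + 1` numerically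
   trivial correspondences between powers of `A` map all homologically trivial cycles on the
   varieties `X × A ^ n` into the kernel of `ht`, and all compositions of `2 k + 1 + l` of them act as
   zero if `Nker = l` is finite. In particular, if the form is positive definite for all `n`, then every
   numerically trivial correspondence between powers of `A` acts as zero on the homologically trivial
   cycles. For `X` a power of `A`: if (Q1) and (Q2) hold for all powers of `A` (by (Q1) there are no
   homologically trivial cycles in the parts `h^j` with `j < 2 i - 1`, and by (Q2) there are none in
   those with `j > 2 i - 1`), then the composition of any two homologically trivial correspondences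
   between powers of `A` is zero, as predicted by Beilinson and Bloch.

Parts 2 to 6 for the signs need that for each `m` the compositions of sufficiently many numerically
trivial correspondences from `A ^ m` to itself send all cycles on `X × A ^ m` to the kernel of `ht`. This
is known for all `X` and the varieties `A` above (even all these compositions are zero: Kimura,
O'Sullivan), and by the theorem it holds if the limit of `rk(n) / ρ(n)` is finite.

The setting. `C` is the category of the powers of `A` with the real vector spaces `CH^*(Y × Z) ⊗ ℝ` (all
codimensions) as morphisms, a rigid symmetric monoidal category, `T = h(A)` is self-dual,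
`tp T n = h(A ^ n)`, `R` is the cohomology with complex coefficients (`K = ℂ`), and `dag f = f'`. `G` is the
functor `Y ↦ (homologically trivial cycles on X × Y)`, and `F` is the form `ht` on it. In the theorem `G`
is any additive functor to real vector spaces, and `F` is any symmetric form on it for which `dag` is
the adjoint. For the kernels alone, on the powers of one variety, see
`MP_29b22a_nt.HeightsOfPowers`, which does not need an involution.

Proof. The problem is that the number of the negative squares is not the dimension of the value of a
functor, since there is no canonical space on which a form is negative. Choose a MAXIMAL family of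
subspaces `S(Y)` of the spaces `G(Y) / ker` which is stable under all morphisms and on which the
form is nonpositive. The main point is that the form is nonnegative on the orthogonal of `S(Y)`. Let
`a` be orthogonal to `S(Y)` with `ht(a, a) < 0`. By descending induction on `j`, the images of `a` under
compositions of `j ≥ 1` numerically trivial endomorphisms generate stable families which are
isotropic and orthogonal to `S`, so they are contained in `S` by maximality. Hence
`ht(x a, y a)` defines a symmetric form on the space `E` of the endomorphisms of `Y` modulo numerical
equivalence, which has finite dimension and carries the positive definite form `tr(x y')`. By the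
spectral theorem there are `z ≠ 0` in `E` and `μ < 0` with `ht(z a, y a) = μ tr(z y')` for all `y`. Then
`ht(c z a, c z a) = μ tr((c z)(c z)') ≤ 0` for all morphisms `c` from `Y` to any `Z`, so `z a`
generates a nonpositive stable family orthogonal to `S`, and `z a` is in `S(Y)` by maximality. But then
`0 = ht(z a, z a) = μ tr(z z') < 0`. It follows that `neg` is the dimension of `S`, and the law of the
dimensions of the values of additive functors on the powers of `A` (`N64/AF` in the starting tree)
applies to `S`. For part 6: if `Nneg = k`, then compositions of `k` numerically trivial morphisms kill
`S` (`N64/AF`), and so their adjoints map `V / ker` to the orthogonal `S^⊥` of `S`; and if `f` is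
numerically trivial and `a` in `S^⊥`, then `g = f' f` is nilpotent on `a` and self-adjoint, so `g a`,
and hence `f a`, is in the radical of the nonnegative form on `S^⊥`, which is contained in `S`.
-/

set_option autoImplicit false

open CategoryTheory MonoidalCategory
open Pool.Agent.Y112.SR Pool.Agent.Y112.KD Pool.Agent.N64.AF Pool.Agent.Run7.h184.AJ
open Pool.Agent.Run7.h641.IL

namespace Pool.Agent.Results.MP_e2c9e7_nt.InertiaLaw

universe v u w x

/-- The numbers of the positive and of the negative squares of a form on an additive functor on the
powers of an object with a positive involution: external products, the law of inertia, the criterion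
for definiteness, the gap, the generation of the part with the wrong sign, and the nilpotence of the
numerically trivial morphisms. -/
theorem result {C : Type u} [Category.{v} C] [Preadditive C] [MonoidalCategory C]
    [MonoidalPreadditive C] [SymmetricCategory C] [RightRigidCategory C] [Linear ℝ C]
    [MonoidalLinear ℝ C] {K : Type w} [Field K] [IsAlgClosed K] [Algebra ℝ K]
    (R : SuperRealisation C K) (dag : ∀ ⦃Y Z : C⦄, (Y ⟶ Z) → (Z ⟶ Y)) (hp : IsPositive R dag)
    (T : C) [ExactPairing T T] (h : IsPow ℝ R T)
    (G : C ⥤ ModuleCat.{x} ℝ) [G.Additive] [G.Linear ℝ] (F : Form G dag) :
    (∀ (Y Z : C) (a : G.obj Y), (F.B Y a a < 0 → (numRank ℝ Z : ℕ∞) ≤ F.negSq (Y ⊗ Z)) ∧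
      (0 < F.B Y a a → (numRank ℝ Z : ℕ∞) ≤ F.posSq (Y ⊗ Z))) ∧
    ∃ Nall Nker Nrk : ℕ∞, KerLaw F T Nall Nker Nrk ∧ (Nrk ≠ ⊤ → NumNil F T) ∧
      (NumNil F T → ∃ Npos Nneg : ℕ∞, Inertia R F T Nker Npos Nneg ∧ Nrk = Npos + Nneg) :=
  main h hp F

end Pool.Agent.Results.MP_e2c9e7_nt.InertiaLaw
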