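import Pool.Agent.Run7.h192.HL.Indep

/-!
# Q1 for a variety with a Lefschetz triple

Let `𝒱` be a class of smooth projective varieties over a field `k` (a number field) which is closed
under products, with Chow groups `C` (rational coefficients) and a Weil cohomology theory `W`. Let
`X` be in `𝒱` of dimension `n`, with a divisor class `D` and a Chow–Künneth decomposition `π`, which
belong to a Lefschetz triple: there is a correspondence `Λ` such that multiplication by `D`, `Λ` and
multiplication by `j - n` on `h^j(X)` satisfy the relations of `sl₂` in `CH(X × X)`. Abelian varieties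
have such a triple for all symmetric ample `D` and the canonical `π` (Künnemann); the existence for
products and for the transposed decomposition is proved here.

1. `D^(n + 1 - 2i)` is injective on the homologically trivial classes of codimension `i` for all
   `i ≤ (n + 1) / 2` if and only if, for all `i`, `CH^i(h^j(X)) = 0` for `j > 2i` and
   `CH^i(h^(2i)(X))` contains no homologically trivial class (the first half of Murre's conjecture
   (B), and (D)). It is surjective onto the homologically trivial classes of codimension
   `n + 1 - i`, for all `i ≤ (n + 1) / 2`, if and only if `CH^i(h^j(X)) = 0` for all `i` and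
   `j < 2i - 1`. So Q1 holds for `X` and `D` if and only if `CH^i(h^j(X)) = 0` unless
   `j = 2i, 2i - 1`, and `CH^i(h^(2i)(X))` contains no homologically trivial class.
2. Suppose that Q1 holds for `X × X` and the divisor class `D ⊞ D`. Then homologically trivial
   correspondences of degree zero on `X` compose to zero; for all Chow–Künneth decompositions `π'`
   of `X`, not only for `π`: `Hom(h^a(X), h^b(X)) = 0` unless `b = a, a - 1`, homologically trivial
   endomorphisms of `h^a(X)` are zero, and the Chow groups of `X` are as in 1; and Q1 holds for `X`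
   and all divisor classes which belong to a Lefschetz triple.
3. If `(X, D)` and `(Y, E)` belong to Lefschetz triples then so does `(X × Y, D ⊞ E)`. For a class of
   pairs `(X, D)`, each of which belongs to a Lefschetz triple, which is closed under products (for
   example the powers of one variety), are equivalent: Q1 for all members; the description of the
   Chow groups in 1, for all members and all Chow–Künneth decompositions; the description of
   `Hom(h^a(X), h^b(X))` in 2, for all members and all Chow–Künneth decompositions; the same for one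
   Chow–Künneth decomposition of each member.
-/

open Pool.Agent.H914 Pool.Agent.R903 Pool.Agent.Run7.h192.AJ Pool.Agent.Run7.h192.HL

universe u v w

namespace Pool.Agent.Results.MP_e2c9e7_nt.LefschetzAndMurre

theorem result {k : Type u} [Field k] {𝒱 : VarClass k} {C : ChowTheory.{u, v} 𝒱}
    {W : WeilTheory.{u, v, w} C} (hP : C.Polarized) :
    (∀ (X : 𝒱.Obj) (D : C.CH X) Λ π, LefschetzTriple W D Λ π →
      ((∀ i, 2 * i ≤ X.dim + 1 → LefInjective W D i) ↔ NoUpper W π) ∧
      ((∀ i, 2 * i ≤ X.dim + 1 → LefSurjective W D i) ↔ NoLower C π) ∧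
      (BeilinsonLefschetz W D ↔ NoUpper W π ∧ NoLower C π)) ∧
    (∀ (X : 𝒱.Obj) (D : C.CH X) Λ π, LefschetzTriple W D Λ π →
      BeilinsonLefschetz W (sumDiv C D D) →
        SquareZero W X ∧ (∀ π', W.IsCK X π' → LengthOne W π' ∧ NoUpper W π' ∧ NoLower C π') ∧
        ∀ D' Λ' π', LefschetzTriple W (X := X) D' Λ' π' → BeilinsonLefschetz W D') ∧
    (∀ (X Y : 𝒱.Obj) (D : C.CH X) (E : C.CH Y) Λ π M ρ, LefschetzTriple W D Λ π →
      LefschetzTriple W E M ρ → ∃ N σ, LefschetzTriple W (sumDiv C D E) N σ) ∧
    ∀ 𝒯 : PairClass W,
      [∀ (X : 𝒱.Obj) (D : C.CH X), 𝒯.mem X D → BeilinsonLefschetz W D,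
        ∀ (X : 𝒱.Obj) (D : C.CH X), 𝒯.mem X D → ∀ π, W.IsCK X π →
          NoUpper W π ∧ NoLower C π,
        ∀ (X : 𝒱.Obj) (D : C.CH X), 𝒯.mem X D → ∀ π, W.IsCK X π → LengthOne W π,
        ∀ (X : 𝒱.Obj) (D : C.CH X), 𝒯.mem X D → ∃ π, W.IsCK X π ∧ LengthOne W π].TFAE :=
  ⟨fun _ _ _ _ h => h.main, fun _ _ _ _ h hQ => h.square hP hQ,
    fun _ _ _ _ _ _ _ _ h h' => h.exists_prod h', fun 𝒯 => 𝒯.tfae hP⟩

end Pool.Agent.Results.MP_e2c9e7_nt.LefschetzAndMurre
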