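import Pool.Agent.Run7.h384.AB.HtFin

/-!
# Beilinson's Lefschetz and Hodge index conjectures: the middle codimension suffices

For a smooth projective variety `X` of dimension `n` over a number field with an ample class `λ` let
`V ^ i (X) = Ch ^ i (X) ^ 0` be the space of the classes of cycles homologous to zero, and

* `Q1_i(X)`: `λ ^ (n + 1 - 2 i) : V ^ i (X) → V ^ (n + 1 - i) (X)` is an isomorphism,
* `Q2_i(X)`: `(-1) ^ i (x, λ ^ (n + 1 - 2 i) x) > 0` for all `x ≠ 0` in `V ^ i (X)` with
  `λ ^ (n + 2 - 2 i) x = 0`.

Products carry the sums of the classes.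

1. (All varieties.) Let `𝒜` be a class of varieties with ample classes which is stable under products
   with one curve, for instance all varieties. `Q1` for all members of `𝒜` and all `i` is
   equivalent to the bijectivity of the single map `λ : V ^ m (X) → V ^ (m + 1) (X)` for the members
   of dimension `2 m`, `m` in any given infinite set. `Q2` for all members and all `i` is equivalent
   to the definiteness of `(-1) ^ m (x, x)` on the kernel of `λ` in `V ^ m (X)` for the members of
   dimension `2 m - 1`, `m` in any given infinite set. In fact `Q1_m(X × (ℙ¹) ^ t)`, `2 m = n + t`,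
   implies `Q1_j(X)` for all `j` with `n - 2 j ≤ t`, and `Q2_m(X × (ℙ¹) ^ t)`, `2 m = n + t + 1`, implies
   `Q2_j(X)` for all `j` with `n + 1 - 2 j ≤ t`.
2. (Products.) More generally let `X₁, …, X_t` be of dimensions `n_i`, `N = ∑ n_i`, and `Z` of dimension
   `d`, `2 j ≤ d + 1`, `j ≤ q ≤ j + N`. If `2 q ≤ d + N` and `q + j + n_i ≤ d + N` for all `i`, then
   `Q1_q(X₁ × ⋯ × X_t × Z)` implies `Q1_j(Z)`. If `2 q ≤ d + N + 1` and `q + j + n_i ≤ d + N + 1` for
   all `i`, then `Q2_q(X₁ × ⋯ × X_t × Z)` implies `Q2_j(Z)`, and the form on the primitive part of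
   `V ^ j (Z)` has at most as many positive (negative) squares as the form on the primitive part
   of `V ^ q (X₁ × ⋯ × X_t × Z)`.
3. (Powers.) In particular, if `Q1` or `Q2` fails for `X ^ a` in the codimension `j`, it fails for all
   `X ^ b`, `b ≥ a + 2`, in all codimensions `q` with `j ≤ q ≤ j + n (b - a)` and `2 q ≤ n b`.
4. (One codimension of infinitely many powers.) Let `S` be a set of pairs `(b, q)`, `2 q ≤ n b`, in
   which `b` and `q` are unbounded together. `Q1` (`Q2`) for all powers of `X` and all codimensions is
   equivalent to `Q1_q(X ^ b)` (`Q2_q(X ^ b)`) for the `(b, q)` in `S`.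
5. (Superadditivity and multiplicities.) The number of squares of a given sign in the codimension
   `q` of `X × Z` is at least the sum of the numbers in the codimensions `q - c` of `Z`, over all
   `0 ≤ c ≤ min(n, q)` with `c + 2 (q - c) ≤ d + 1`. In the codimension `q` of `X ^ t × Z` it is at
   least `m` times the number in the codimension `j` of `Z`, where `m` is the multiplicity of
   `V_(d + 1 + n t - 2 q)` in the representation `V_(d + 1 - 2 j) ⊗ V_n ^ (⊗ t)` of `sl₂`.

The proof. The space `V(Z)` with the operator `λ` is a graded module over `ℚ[λ]` with the centre of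
symmetry `(d + 1) / 2`. A failure of the injectivity in `Q1_j` gives a string `x, λ x, …, λ ^ l x` with
`λ ^ (l + 1) x = 0` which begins in degree `j` and is too short. Its products with the powers of the
divisor on `X` form the product of two strings, which contains for `c ≤ min(l, n)` a string of
length `n + l - 2 c + 1` which begins in the degree `j + c` (explicit Clebsch-Gordan
formulas), not killed because of the push-forward to `Z`. In several steps one finds a string which
violates the injectivity in `Q1_q`. For the surjectivity the same argument is applied to linear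
functionals on `V(Z)` and their compositions with `x ↦ pr_* (λ_X ^ s x)`. For `Q2` the lowest vectors
of the strings are primitive, with the same sign, and orthogonal for different `c`.
-/

set_option autoImplicit false

universe u v

namespace Pool.Agent.Results.MP_e2c9e7_nt.MiddleCodimensionSuffices

open Pool.Agent.Run7.h384.AB

/-- **Beilinson's conjectures on the Lefschetz isomorphism and the Hodge index for cycles
homologous to zero: the middle codimension suffices.** -/
theorem result (T : HeightTheory.{u, v}) :
    (∀ P : Pol T, Positive P → P.dim = 1 → ∀ A : Set (Pol T), (∀ Q ∈ A, P.prod Q ∈ A) →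
      ∀ D : Set ℕ, (∀ N, ∃ m ∈ D, N ≤ m) → MiddleLefschetz A D ∧ MiddleIndex A D) ∧
    (∀ (l : List (Pol T)) (Q : Pol T), (∀ P ∈ l, Positive P) → ∀ j q,
      2 * j ≤ Q.dim + 1 → j ≤ q → q ≤ j + dims l → FromProduct l Q j q) ∧
    ∀ P : Pol T, Positive P →
      (∀ s t j q, 2 ≤ t → 2 * j ≤ (s + 1) * P.dim + 1 → j ≤ q → q ≤ j + t * P.dim →
        FromPower P s t j q) ∧
      (∀ S : Set (ℕ × ℕ), (∀ x ∈ S, 2 * x.2 ≤ (x.1 + 1) * P.dim) →
        (∀ N, ∃ x ∈ S, N ≤ x.1 ∧ N ≤ x.2) → SetLefschetz P S ∧ SetIndex P S) ∧
      ∀ (Q : Pol T) (s : ℝ), Superadditive P Q s ∧ Multiplied P Q s :=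
  ⟨fun _ hP hdim _ hA _ hD => middle_iff hP hdim hA hD,
    fun _ _ hl _ _ h0 h1 h2 => ⟨fun h3 h4 h => lefschetz_list hl h0 h1 h2 h3 h4 h,
      fun h3 h4 => index_list hl h0 h1 h2 h3 h4⟩,
    fun _ hP => ⟨fun _ _ _ _ ht hj h1 h3 => ⟨fun h2 h => lefschetz_power hP ht hj h1 h2 h3 h,
      fun h2 => index_power hP ht hj h1 h2 h3⟩, fun _ hS hS' => powers_iff hP hS hS',
      fun Q s => ⟨squares_prod Q hP s, squares_ways Q hP s⟩⟩⟩

end Pool.Agent.Results.MP_e2c9e7_nt.MiddleCodimensionSuffices
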