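import Pool.Agent.Run7.h174.BhC

/-!
# Beilinson's conjectures for height pairings: the middle of rational varieties suffices

Let `K` be a number field. For a smooth projective variety `X` over `K` of dimension `n` with an
ample class `L` the conjectures of the problem are

* (Q1) `L ^ (n + 1 - 2 i) : CH^i(X)^0 → CH^(n + 1 - i)(X)^0` is an isomorphism for
  `2 i ≤ n + 1`;
* (Q2) `(-1) ^ i (x, L ^ (n + 1 - 2 i) x) > 0` for all `x ≠ 0` in `CH^i(X)^0` with
  `L ^ (n + 2 - 2 i) x = 0`, `2 i ≤ n + 1`.

Theorem.

1. (Q1) holds for ALL `X`, `L` and `i` if and only if, for all RATIONAL varieties `T` of even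
   dimension `2 q` and all ample classes `H` on `T`, the map `H : CH^q(T)^0 → CH^(q + 1)(T)^0` is an
   isomorphism.
2. (Q2) holds for ALL `X`, `L` and `i` if and only if, for all RATIONAL varieties `T` of odd
   dimension `2 q - 1` and all ample classes `H` on `T`, `(-1) ^ q (x, x) > 0` for all `x ≠ 0` in
   `CH^q(T)^0` with `H x = 0`.

No conjecture is used, besides the existence of the height pairings, which the problem
presupposes. The first statement makes sense and is proved over every field.

The test varieties (this is the application of the formal theorem `result`, in which their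
properties are hypotheses, collected in `Test`). Let `X` be smooth and projective with the very
ample class `t`, a multiple of the given one. For large `k` the bundles `T_X(k)` and `Ω_X(k)` (twists
by `k t`) are generated by sections, and define, with the embedding by `t`, an embedding of `X` into
`B = G₁ × G₂ × P ^ M`, with Grassmannians `G_l` of quotients `Q_l` of trivial bundles of rank `n_l`,
with kernels `U_l`, such that `Q₁`, `Q₂` restrict to `T_X(k)`, `Ω_X(k)`. On `B` consider the vector
bundle `V = Q₁(-k) ⊕ ⨁_l (U_l^∨ ⊗ U_l ⊕ (Q_l^∨) ^ (n_l))`. Let `R` be the projective completion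
`P(V ⊕ O)` of `V`, and embed `X` into `R` by the zero section. In the Grothendieck group of `X` the
normal bundle is the restriction of `T_B + V` minus `T_X`. Since `T_(G_l) = n_l Q_l - Q_l^∨ ⊗ Q_l` and
`U_l^∨ ⊗ U_l = n_l ^ 2 - n_l Q_l - n_l Q_l^∨ + Q_l^∨ ⊗ Q_l`, the sum `T_(G_l) + U_l^∨ ⊗ U_l + n_l Q_l^∨` is the
trivial class `n_l ^ 2`, and `Q₁(-k)` restricts to `T_X`. So the normal bundle is
`(M + 1) O(1) + trivial`, and its Chern classes are the classes `binom(M + 1, k) t ^ k`. The class
`det Q₁ + det Q₂` restricts to `2 n k t`, and `O_R(1)` restricts to zero on the zero section, so there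
is an ample class `A` on `R` which restricts to a positive multiple `λ t` of `t`. So the Chern
classes of the normal bundle are rational multiples of the powers of `λ t` (`blow`, `restrict`). The
variety `R` is rational and has a cellular decomposition, so `CH(R)^0 = 0` (`trivial_R`). The blow-up
`Z` of `R` along `X` is rational, `N π^* A - E` is ample for large `N`, and `T = P ^ m × Z` is rational
(`mem`).

Proof. Let `j : E → Z` be the exceptional divisor, `g : E → X` the projection, `ξ` the class of
`O_E(1)`, `c` the codimension of `X` in `R`, `H_N = N π^* A - E`. Since `CH(R)^0 = 0`, the key formula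
for `i_* w = 0` gives a relation of degree `c - 1` (not only the relation of Grothendieck, of degree
`c`) between the classes `j_*(ξ ^ k g^* w)`, `w` in `CH(X)^0`, whose coefficients are powers of `A|_X`. So
if `x` is in `CH^i(X)^0` and `L ^ (s + 1) x = 0`, `s = n + 1 - 2 i`, then `z = j_* g^* x`, of codimension
`i + 1` in `Z`, is annihilated by `H_N ^ (s + c - 1)`: it is exactly primitive, for EVERY `N`, no
projection to a primitive part (which would need further conjectures) is necessary. By the
projection formula for the heights, `(z, H_N ^ (s + c - 2) z) = - P(N) (x, (A|_X) ^ s x)`, where `P` is a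
polynomial which depends only on the Segre classes, with leading coefficient
`binom(s + c - 2, s) > 0`. So (Q2) for `Z` and `H_N`, `N` large, gives (Q2) for `X`. In the same way the
injectivity in (Q1) for `Z` gives the injectivity for `X`. For the surjectivity, solve
`H_N ^ (s + c - 2) z = j_*(ξ ^ (c - 2) g^* y)` in `CH^(i + 1)(Z)^0`, and restrict to `E`; by the excess
intersection formula `i^* π_* z = 0` all terms of `g_*` of the result are multiples of
`(A|_X) ^ s`, so `y` is one. Finally, for the reduction to the middle, take a variety `F` of dimension
`m` with a class `h` of positive degree, and the class `w = ∑ (-1) ^ l H ^ l x × h ^ (m - l)` on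
`F × Z`, with `H ^ (m + 1) x = 0`: it is annihilated by `H + h`, and
`(w, w) = (-1) ^ m (m + 1) deg(h ^ m) (x, H ^ m x)`.

In Lean, `𝒱` is a class of smooth proper schemes over a field with products, `C` is a theory of Chow
groups with rational coefficients (`ChowTheory`) and `W` a Weil cohomology with a cycle class map on
`C` (`WeilTheory`), both from the starting file `Pool/Agent/R903/Chow.lean`; `HT` says that a class is
homologically trivial and has a given codimension, `Heights W` is the height pairing with its
projection formulas, `Pols` is the set of all varieties with an ample class (or any set with test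
varieties), and `S` is the set of all rational ones.
-/

set_option autoImplicit false

open CategoryTheory AlgebraicGeometry
open Pool.Agent.H914 Pool.Agent.R903 Pool.Agent.Run7.h174.BH

namespace Pool.Agent.Results.MP_e2c9e7_nt.RationalVarieties

universe u v w

/-- Questions 1 and 2 for all polarized varieties are equivalent to their middle cases for the
test varieties. -/
theorem result {k : Type u} [Field k] {𝒱 : VarClass k} {C : ChowTheory.{u, v} 𝒱}
    (W : WeilTheory.{u, v, w} C) {Pols S : Set (Pol C)} (hS : S ⊆ Pols)
    (hτ : ∀ P ∈ Pols, Nonempty (Test W S P)) :
    ((∀ P ∈ Pols, Lefschetz W P) ↔ ∀ T ∈ S, MiddleLefschetz W T) ∧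
      ∀ h : Heights W, (∀ P ∈ Pols, HodgeIndex h P) ↔ ∀ T ∈ S, MiddleHodgeIndex h T :=
  main hS hτ

end Pool.Agent.Results.MP_e2c9e7_nt.RationalVarieties
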